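import Mathlib
import Pool.Agent.Work.MP_db9399_co.Defs

/-!
MP_db9399_co, linear theorem (owner helper75).  Exact statements of all blocks, see BLUEPRINT.md.
Edges of the graph are represented by ordered pairs `(w, x)` with `r w < r x` (`r` = rank function
of a degeneracy order; every vertex has at most `s` earlier neighbours).
-/

set_option autoImplicit false

namespace MP_db9399_co.Lin

universe u

section defs

variable {V : Type u} [DecidableEq V]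

/-- edges of `S` at the vertex `w` -/
def inc (S : Finset (V × V)) (w : V) : Finset (V × V) := S.filter (fun e => e.1 = w ∨ e.2 = w)

/-- forward edges of `S` at `w` -/
def fwd (S : Finset (V × V)) (w : V) : Finset (V × V) := S.filter (fun e => e.1 = w)

/-- backward edges of `S` at `x` -/
def bwd (S : Finset (V × V)) (x : V) : Finset (V × V) := S.filter (fun e => e.2 = x)

/-- the pairs share a vertex -/
def Share (e f : V × V) : Prop := e.1 = f.1 ∨ e.1 = f.2 ∨ e.2 = f.1 ∨ e.2 = f.2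

/-- `M` is a matching -/
def IsM (M : Finset (V × V)) : Prop := ∀ e ∈ M, ∀ f ∈ M, Share e f → e = f

/-- colours (or labels) forbidden at `w`: given for special vertices `U`, own colour otherwise -/
def FbOf {C : Type} [DecidableEq C] (U : Finset V) (F0 : V → Finset C) (c : V → C) (w : V) :
    Finset C :=
  if w ∈ U then F0 w else {c w}

/-- vertices to be avoided by the reference matching `Q j` (`j = 0, 1`: labels `0, 1`, side `false`;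
`j = 2, 3`: labels `kk - 1, kk - 2`, side `true`). -/
def ZQ [Fintype V] {k : ℕ} (Fb : V → Finset (Fin k)) (L : Finset (Fin k)) (side : V → Bool)
    (j : Fin 4) : Finset V :=
  Finset.univ.filter (fun w => side w = decide (2 ≤ j.val) ∧ j.val % 2 + 1 ≤ (Fb w ∩ L).card)

end defs

/-- BF: Beck-Fiala, iterated `a` times. -/
def Stmt_BF : Prop := ∀ (Ω ι : Type u) [Fintype Ω] [DecidableEq Ω] [Fintype ι] [DecidableEq ι]
  (A : ι → Finset Ω) (t a : ℕ),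
  (∀ x, (Finset.univ.filter (fun i => x ∈ A i)).card ≤ t) →
  ∃ f : Ω → Fin a → Bool, ∀ i b,
    2 ^ a * ((A i).filter (fun x => f x = b)).card ≤ (A i).card + 2 ^ (a + 1) * t

/-- CUT (from BF with `t = s`). -/
def Stmt_CUT : Prop := ∀ (V : Type u) [Fintype V] [DecidableEq V] (E : Finset (V × V)) (s m : ℕ),
  (∀ x, (bwd E x).card ≤ s) →
  ∃ f : V → Fin m → Bool, ∀ w b,
    2 ^ m * ((fwd E w).filter (fun e => f e.2 = b)).card ≤ (fwd E w).card + 2 ^ (m + 1) * s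

/-- SPL (from BF with `a = 2`, `t = 2 s`): splitting every label into four colours. -/
def Stmt_SPL : Prop := ∀ (V : Type u) [Fintype V] [DecidableEq V] (E N0 : Finset (V × V))
  (s ℓ : ℕ) (U : Finset V) (lv : V → Fin ℓ) (le : V × V → Fin ℓ),
  N0 ⊆ E → (∀ e ∈ E, e.1 ≠ e.2) → (∀ x, (bwd E x).card ≤ s) →
  (∀ e ∈ N0, ∀ f ∈ N0, e ≠ f → Share e f → le e ≠ le f) →
  (∀ e ∈ N0, (e.1 ∉ U → le e ≠ lv e.1) ∧ (e.2 ∉ U → le e ≠ lv e.2)) →
  ∃ (pv : V → Fin 4) (pe : V × V → Fin 4), ∀ w i j,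
    2 * ((fwd E w).filter (fun e => (e.2 ∉ U ∧ lv e.2 = i ∧ pv e.2 = j) ∨
      ∃ g ∈ N0, le g = i ∧ pe g = j ∧ (g.1 = e.2 ∨ g.2 = e.2))).card ≤ (fwd E w).card + 16 * s

/-- LABV: greedy labels of the vertices. -/
def Stmt_LABV : Prop := ∀ (V : Type u) [Fintype V] [DecidableEq V] (r : V → ℕ)
  (R : V → V → Prop) [DecidableRel R] (U : Finset V) (ℓ q : ℕ) (FL : V → Finset (Fin ℓ)),
  Function.Injective r → (∀ x y, R x y → R y x) → (∀ x, ¬ R x x) →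
  (∀ u ∈ U, (FL u).card ≤ 2) →
  (∀ x, (Finset.univ.filter (fun u => u ∈ U ∧ R x u)).card ≤ 2) →
  (∀ u ∈ U, ∀ v ∈ U, ¬ R u v) →
  (∀ x, (Finset.univ.filter (fun w => R x w ∧ r w < r x)).card ≤ q) → q + 5 ≤ ℓ →
  ∃ lam : V → Fin ℓ, ∀ x y, R x y → Disjoint (FbOf U FL lam x) (FbOf U FL lam y)

/-- LABE: greedy labels of the edges of `N0`. -/
def Stmt_LABE : Prop := ∀ (V : Type u) [Fintype V] [DecidableEq V] (N0 : Finset (V × V))
  (d ℓ : ℕ) (Fx : V → Finset (Fin ℓ)),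
  (∀ w, (Fx w).card ≤ 2) → (∀ w, (inc N0 w).card ≤ d) → 2 * d + 3 ≤ ℓ →
  ∃ lam : V × V → Fin ℓ, (∀ e ∈ N0, lam e ∉ Fx e.1 ∧ lam e ∉ Fx e.2) ∧
    ∀ e ∈ N0, ∀ f ∈ N0, e ≠ f → Share e f → lam e ≠ lam f

/-- FIL: pairwise disjoint matchings `M τ ⊆ Ea τ` covering `A τ` and avoiding `Z τ`. -/
def Stmt_FIL : Prop := ∀ (V : Type u) [Fintype V] [DecidableEq V] (r : V → ℕ)
  (E : Finset (V × V)) (s : ℕ), 1 ≤ s → (∀ e ∈ E, r e.1 < r e.2) → (∀ x, (bwd E x).card ≤ s) →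
  ∀ (ι : Type) [Fintype ι] [DecidableEq ι] (A Z : ι → Finset V) (Ea : ι → Finset (V × V)),
  (∀ τ, Ea τ ⊆ E) → (∀ τ, Disjoint (A τ) (Z τ)) →
  (∀ τ, ∀ w ∈ A τ, s + Fintype.card ι ≤ ((fwd (Ea τ) w).filter (fun e => e.2 ∉ Z τ)).card) →
  ∃ M : ι → Finset (V × V), (∀ τ, M τ ⊆ Ea τ) ∧ (∀ τ, IsM (M τ)) ∧
    (∀ τ τ', τ ≠ τ' → Disjoint (M τ) (M τ')) ∧
    (∀ τ, ∀ w ∈ A τ, ∃ e ∈ M τ, e.1 = w ∨ e.2 = w) ∧
    (∀ τ, ∀ e ∈ M τ, e.1 ∉ Z τ ∧ e.2 ∉ Z τ)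

/-- TYP: every edge chooses a cut which it crosses, with bounded degrees in each cut. -/
def Stmt_TYP : Prop := ∀ (V : Type u) [Fintype V] [DecidableEq V] (r : V → ℕ)
  (F : Finset (V × V)) (m B s q : ℕ) (f : V → Fin m → Bool) (cap : Fin m → ℕ),
  1 ≤ m → Function.Injective r → (∀ e ∈ F, r e.1 < r e.2) → (∀ e ∈ F, f e.1 ≠ f e.2) →
  (∀ w b, ((fwd F w).filter (fun e => f e.2 = b)).card ≤ B) → (∀ x, (bwd F x).card ≤ s) →
  (∀ w, (inc F w).card ≤ ∑ i, cap i) → (∀ i, q ≤ cap i) →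
  (∀ j, 1 ≤ j → j < m → 2 ^ j * B + s ≤ j * q) →
  ∃ ty : V × V → Fin m, (∀ e ∈ F, f e.1 (ty e) ≠ f e.2 (ty e)) ∧
    ∀ w i, ((inc F w).filter (fun e => ty e = i)).card ≤ cap i

/-- GAL: one bipartite part, by Konig (reference labelling) and Galvin. -/
def Stmt_GAL : Prop := ∀ (V : Type u) [Fintype V] [DecidableEq V] (k kk : ℕ) (side : V → Bool)
  (F0 : Finset (V × V)) (Q : Fin 4 → Finset (V × V)) (L : Finset (Fin k))
  (Fb : V → Finset (Fin k)),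
  4 ≤ kk → L.card = kk → (∀ w, (Fb w ∩ L).card ≤ 2) →
  (∀ e ∈ F0, side e.1 ≠ side e.2) → (∀ j, ∀ e ∈ Q j, side e.1 ≠ side e.2) →
  (∀ w, (inc F0 w).card + 4 ≤ kk) → (∀ j, IsM (Q j)) → (∀ j, Disjoint F0 (Q j)) →
  (∀ i j, i ≠ j → Disjoint (Q i) (Q j)) →
  (∀ j, ∀ e ∈ Q j, e.1 ∉ ZQ Fb L side j ∧ e.2 ∉ ZQ Fb L side j) →
  ∃ col : V × V → Fin k,
    (∀ e, (e ∈ F0 ∨ ∃ j, e ∈ Q j) → col e ∈ L ∧ col e ∉ Fb e.1 ∧ col e ∉ Fb e.2) ∧
    ∀ e f, (e ∈ F0 ∨ ∃ j, e ∈ Q j) → (f ∈ F0 ∨ ∃ j, f ∈ Q j) → e ≠ f → Share e f →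
      col e ≠ col f

/-- CORE (from CUT, SPL, LABV, LABE, FIL, TYP, GAL): `R` is adjacency in `G` minus the edges of
`H`, `E` the heavy ones, `U` the vertices of `H`, `Fb0 u` the two colours forbidden at `u`. -/
def Stmt_CORE : Prop := ∀ (V : Type u) [Fintype V] [DecidableEq V] (r : V → ℕ)
  (R : V → V → Prop) [DecidableRel R] (E : Finset (V × V)) (s k : ℕ) (U : Finset V)
  (Fb0 : V → Finset (Fin k)),
  1 ≤ s → 600 * s ≤ k → Function.Injective r → (∀ x y, R x y → R y x) → (∀ x, ¬ R x x) →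
  (∀ e ∈ E, r e.1 < r e.2) → (∀ e ∈ E, R e.1 e.2) → (∀ x, (bwd E x).card ≤ s) →
  (∀ u ∈ U, (Fb0 u).card ≤ 2) →
  (∀ x, (Finset.univ.filter (fun u => u ∈ U ∧ R x u)).card ≤ 2) →
  (∀ u ∈ U, ∀ v ∈ U, ¬ R u v) →
  (∀ x, (Finset.univ.filter (fun w => R x w ∧ r w < r x)).card ≤ s + k / 32) →
  (∀ w, w ∉ U → (inc E w).card + 1 ≤ k) → (∀ u ∈ U, (inc E u).card + (Fb0 u).card ≤ k) →
  ∃ (c : V → Fin k) (col : V × V → Fin k),
    (∀ x y, R x y → Disjoint (FbOf U Fb0 c x) (FbOf U Fb0 c y)) ∧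
    (∀ e ∈ E, col e ∉ FbOf U Fb0 c e.1 ∧ col e ∉ FbOf U Fb0 c e.2) ∧
    (∀ e ∈ E, ∀ f ∈ E, e ≠ f → Share e f → col e ≠ col f)

/-- FIN (from CORE): the theorem. -/
def Stmt_FIN : Prop := ∀ (V : Type u) [Fintype V] (G : SimpleGraph V) [DecidableRel G.Adj]
  (s k : ℕ), (∀ S : Finset V, S.Nonempty → ∃ v ∈ S,
    (S.filter (fun w => G.Adj v w ∧ (k ≤ 32 * G.degree v ∨ k ≤ 32 * G.degree w))).card ≤ s) →
  G.maxDegree + 1 ≤ k → 600 * (s + 1) ≤ k →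
  ∀ (H : G.Subgraph), IsDistThreeMatching H → EveryTotalColoringExtends H (Fin k)

end MP_db9399_co.Lin
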