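import Pool.Agent.Work.MP_db9399_lin_helper28.FIL
import Pool.Agent.Work.MP_db9399_lin_helper28.FIN
import Pool.Agent.Work.MP_db9399_lin_helper38.GAL
import Pool.Agent.Work.MP_db9399_lin_helper38.TYP
import Pool.Agent.Work.MP_db9399_lin_helper48.LABE
import Pool.Agent.Work.MP_db9399_lin_helper48.LABV
import Pool.Agent.Work.MP_db9399_lin_helper75.CoreB
import Pool.Agent.Work.MP_db9399_lin_helper80.SPL

/-!
MP_db9399_co, linear theorem: assembly of the blocks (BF, CUT, SPL: helper80; LABV, LABE: helper48;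
FIL, FIN: helper28; TYP, GAL: helper38; CORE: helper75).
-/

set_option autoImplicit false

namespace MP_db9399_co.Lin

universe u

/-- The linear theorem. -/
theorem linear_extends (V : Type u) [Fintype V] (G : SimpleGraph V) [DecidableRel G.Adj]
    (s k : ℕ) (hdeg : ∀ S : Finset V, S.Nonempty → ∃ v ∈ S,
      (S.filter (fun w => G.Adj v w ∧ (k ≤ 32 * G.degree v ∨ k ≤ 32 * G.degree w))).card ≤ s)
    (hk : G.maxDegree + 1 ≤ k) (hks : 600 * (s + 1) ≤ k)
    (H : G.Subgraph) (hH : IsDistThreeMatching H) : EveryTotalColoringExtends H (Fin k) :=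
  stmt_FIN (stmt_CORE stmt_CUT_direct stmt_SPL stmt_LABV stmt_LABE stmt_FIL stmt_TYP stmt_GAL)
    V G s k hdeg hk hks H hH

end MP_db9399_co.Lin
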